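import Pool.Agent.Helper71.JN.SheetB

/-!
Project JN, row APX: the sizes of `y - Y2`.
-/

set_option autoImplicit false

namespace Pool.Agent.Helper99.JN

open Pool.Agent.Helper71.JN

theorem nu_rat {F Ω : Type} [Field F] [Field Ω] [CharZero Ω] [Algebra F Ω] {I : Type} [Fintype I]
    {r : ℕ} (D : SSF F Ω I r) (i : I) (q : ℚ) (hq : q ≠ 0) : D.nu i (q : Ω) = 1 := by
  have h1 : algebraMap F Ω (q : F) = (q : Ω) := map_ratCast _ q
  have h2 : (q : F) ≠ 0 := by
    intro h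
    rw [h, map_zero] at h1
    exact hq (by exact_mod_cast h1.symm)
  rw [← h1]
  exact D.F1 i _ h2

theorem ult_eq {Ω : Type} [Field Ω] (v : AbsoluteValue Ω ℝ)
    (ult : ∀ x y : Ω, v (x + y) ≤ max (v x) (v y)) (x y : Ω) (h : v y < v x) :
    v (x + y) = v x := by
  apply le_antisymm
  · exact (ult x y).trans (max_le le_rfl h.le)
  · have h1 := ult (x + y) (-y)
    rw [add_neg_cancel_right, v.map_neg] at h1
    rcases le_max_iff.1 h1 with h2 | h2
    · exact h2
    · exact absurd h2 (not_le.2 h)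

theorem APX : ST_APX := by
  intro F Ω _ _ _ _ I _ r D J α β x y R R' H
  have hR' : ∀ i ∈ J, D.nu i (R' i) = Real.exp (-1) := by
    intro i hi
    have h1 : D.nu i (R i * R' i) = 1 := by
      have h2 : D.nu i (R i * R' i - 1) < D.nu i 1 := by
        rw [map_one]
        refine (H.s3 i hi).trans_lt ?_
        rw [← Real.exp_zero]
        exact Real.exp_lt_exp.2 (by norm_num)
      have h3 := ult_eq (D.nu i) (D.ult i) 1 (R i * R' i - 1) h2
      rw [map_one] at h3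
      rw [← h3]
      congr 1
      ring
    rw [map_mul, H.s1 i hi] at h1
    rw [Real.exp_neg]
    exact eq_inv_of_mul_eq_one_right h1
  refine ⟨fun i q hq => nu_rat D i q hq, hR', ?_⟩
  intro i hi
  have hβ0 := H.hβ0
  have hβ := H.hβ
  have hα0 := H.hα0
  set v := D.nu i with hv
  have vq : ∀ q : ℚ, q ≠ 0 → v (q : Ω) = 1 := fun q hq => nu_rat D i q hq
  have ult : ∀ a b : Ω, v (a + b) ≤ max (v a) (v b) := D.ult i
  set b : Ω := x - R i ^ 2 with hb
  set e : Ω := R i * R' i - 1 with he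
  have v1 : v (R i) = Real.exp 1 := H.s1 i hi
  have v1' : v (R' i) = Real.exp (-1) := hR' i hi
  have vb : v b ≤ Real.exp β := H.s2 i hi
  have ve : v e ≤ Real.exp (-4) := H.s3 i hi
  have vd : v (y ^ 2 - x ^ 3) ≤ Real.exp α := H.sd i hi
  have vy : v (y - R i ^ 3) < Real.exp 3 := H.s4 i hi
  have vb2 : v b ^ 2 ≤ Real.exp (2 * β) := by
    calc v b ^ 2 ≤ Real.exp β ^ 2 := by gcongr
      _ = Real.exp (2 * β) := by rw [← Real.exp_nat_mul]; norm_num
  have vb3 : v b ^ 3 ≤ Real.exp (3 * β) := by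
    calc v b ^ 3 ≤ Real.exp β ^ 3 := by gcongr
      _ = Real.exp (3 * β) := by rw [← Real.exp_nat_mul]; norm_num
  have vb4 : v b ^ 4 ≤ Real.exp (4 * β) := by
    calc v b ^ 4 ≤ Real.exp β ^ 4 := by gcongr
      _ = Real.exp (4 * β) := by rw [← Real.exp_nat_mul]; norm_num
  have e13 : Real.exp 1 ^ 3 = Real.exp 3 := by rw [← Real.exp_nat_mul]; norm_num
  have e12 : Real.exp 1 ^ 2 = Real.exp 2 := by rw [← Real.exp_nat_mul]; norm_num
  have e1m : Real.exp (-1) ^ 2 = Real.exp (-2) := by rw [← Real.exp_nat_mul]; norm_num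
  set M : ℝ := Real.exp (max α (3 * β)) with hM
  have hM3 : Real.exp (3 * β) ≤ M := Real.exp_le_exp.2 (le_max_right _ _)
  -- the difference of the squares
  have key : y ^ 2 - Y2 x (R i) (R' i) ^ 2 = (y ^ 2 - x ^ 3) + (((-1 / 8 : ℚ) : Ω) * b ^ 3 +
      (((-9 / 64 : ℚ) : Ω) * (R' i ^ 2 * b ^ 4) + (((-3 / 4 : ℚ) : Ω) * (R i ^ 2 * e * b ^ 2) +
      ((-9 / 8 : ℚ) : Ω) * (e * b ^ 3)))) := by
    rw [Y2, hb, he]
    push_cast
    field_simp
    ring
  have t1 : v (((-1 / 8 : ℚ) : Ω) * b ^ 3) ≤ M := by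
    rw [map_mul, vq _ (by norm_num), one_mul, map_pow]
    exact vb3.trans hM3
  have t2 : v (((-9 / 64 : ℚ) : Ω) * (R' i ^ 2 * b ^ 4)) ≤ M := by
    rw [map_mul, vq _ (by norm_num), one_mul, map_mul, map_pow, map_pow, v1', e1m]
    calc Real.exp (-2) * v b ^ 4 ≤ Real.exp (-2) * Real.exp (4 * β) := by gcongr
      _ = Real.exp (-2 + 4 * β) := by rw [Real.exp_add]
      _ ≤ Real.exp (3 * β) := Real.exp_le_exp.2 (by linarith)
      _ ≤ M := hM3
  have t3 : v (((-3 / 4 : ℚ) : Ω) * (R i ^ 2 * e * b ^ 2)) ≤ M := by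
    rw [map_mul, vq _ (by norm_num), one_mul, map_mul, map_mul, map_pow, map_pow, v1, e12]
    calc Real.exp 2 * v e * v b ^ 2 ≤ Real.exp 2 * Real.exp (-4) * Real.exp (2 * β) := by gcongr
      _ = Real.exp (2 + -4 + 2 * β) := by rw [Real.exp_add, Real.exp_add]
      _ ≤ Real.exp (3 * β) := Real.exp_le_exp.2 (by linarith)
      _ ≤ M := hM3
  have t4 : v (((-9 / 8 : ℚ) : Ω) * (e * b ^ 3)) ≤ M := by
    rw [map_mul, vq _ (by norm_num), one_mul, map_mul, map_pow]
    calc v e * v b ^ 3 ≤ Real.exp (-4) * Real.exp (3 * β) := by gcongr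
      _ = Real.exp (-4 + 3 * β) := by rw [Real.exp_add]
      _ ≤ Real.exp (3 * β) := Real.exp_le_exp.2 (by linarith)
      _ ≤ M := hM3
  have vsq : v (y ^ 2 - Y2 x (R i) (R' i) ^ 2) ≤ M := by
    rw [key]
    refine (ult _ _).trans (max_le (vd.trans (Real.exp_le_exp.2 (le_max_left _ _))) ?_)
    refine (ult _ _).trans (max_le t1 ?_)
    refine (ult _ _).trans (max_le t2 ?_)
    exact (ult _ _).trans (max_le t3 t4)
  -- the sum
  have key2 : y + Y2 x (R i) (R' i) = ((2 : ℚ) : Ω) * R i ^ 3 + ((y - R i ^ 3) +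
      (((3 / 2 : ℚ) : Ω) * (R i * b) + ((3 / 8 : ℚ) : Ω) * (R' i * b ^ 2))) := by
    rw [Y2, hb]
    push_cast
    ring
  have s0 : v (((2 : ℚ) : Ω) * R i ^ 3) = Real.exp 3 := by
    rw [map_mul, vq _ (by norm_num), one_mul, map_pow, v1, e13]
  have s1 : v (((3 / 2 : ℚ) : Ω) * (R i * b)) < Real.exp 3 := by
    rw [map_mul, vq _ (by norm_num), one_mul, map_mul, v1]
    calc Real.exp 1 * v b ≤ Real.exp 1 * Real.exp β := by gcongr
      _ = Real.exp (1 + β) := by rw [Real.exp_add]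
      _ < Real.exp 3 := Real.exp_lt_exp.2 (by linarith)
  have s2 : v (((3 / 8 : ℚ) : Ω) * (R' i * b ^ 2)) < Real.exp 3 := by
    rw [map_mul, vq _ (by norm_num), one_mul, map_mul, map_pow, v1']
    calc Real.exp (-1) * v b ^ 2 ≤ Real.exp (-1) * Real.exp (2 * β) := by gcongr
      _ = Real.exp (-1 + 2 * β) := by rw [Real.exp_add]
      _ < Real.exp 3 := Real.exp_lt_exp.2 (by linarith)
  have vsum : v (y + Y2 x (R i) (R' i)) = Real.exp 3 := by
    rw [key2, ← s0]
    apply ult_eq v ult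
    rw [s0]
    refine (ult _ _).trans_lt (max_lt vy ?_)
    exact (ult _ _).trans_lt (max_lt s1 s2)
  have hprod : v (y - Y2 x (R i) (R' i)) * Real.exp 3 ≤ M := by
    rw [← vsum, ← map_mul]
    refine le_trans (le_of_eq ?_) vsq
    congr 1
    ring
  rw [Real.exp_sub, le_div_iff₀ (Real.exp_pos 3)]
  exact hprod

end Pool.Agent.Helper99.JN
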