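import Pool.Agent.Helper71.JN.SheetA
import Pool.Agent.Helper78.SUBW.LAUW

/-!
Project JN, row SSFX: the concrete field with absolute values satisfies the axioms of `SSF`.
-/

set_option autoImplicit false

namespace Pool.Agent.Helper99.JN

open Filter Finset Pool.Agent.Helper70.SUB Pool.Agent.Helper77.SUBK Pool.Agent.Helper70.SUBL
  Pool.Agent.Helper70.SUBW Pool.Agent.Helper47.SUBW Pool.Agent.Helper78.SUBW Pool.Agent.Helper71.JN

section

variable {M : Type} [Field M] [NumberField M] {S : Finset ℕ} {P : PF S M} {φ : Ultrafilter ℕ}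
  {X : ℕ → ℝ}

/-- a representative of a nonzero class does not vanish -/
theorem rep_ne (g : Om P φ X) (z : ℕ → M) (hz : gm φ z = (g : UP M φ)) (hg : g ≠ 0) :
    ∀ᶠ j in (φ : Filter ℕ), z j ≠ 0 := by
  rw [Ultrafilter.eventually_not]
  intro h
  apply hg
  apply Subtype.ext
  rw [← hz]
  change gm φ z = 0
  rw [← gm_zero φ, gm_eq]
  exact h

theorem mon_coe {r : ℕ} (w : Fin r → ℕ → M) (w' : Fin r → Om P φ X)
    (hw' : ∀ k, ((w' k : Om P φ X) : UP M φ) = gm φ (w k)) (m : Fin r → ℤ) :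
    gm φ (fun j => monM (fun k => w k j) m) = ((mon w' m : Om P φ X) : UP M φ) := by
  rw [gm_monM]
  change ∏ k, gm φ (w k) ^ m k = (Om P φ X).subtype (∏ k, w' k ^ m k)
  rw [map_prod]
  refine Finset.prod_congr rfl fun k _ => ?_
  rw [map_zpow₀, ← hw' k]
  rfl

/-- comparison of sizes -/
theorem nu_le_of {nu : Pl S M → AbsoluteValue (Om P φ X) ℝ} (hN : IsN P φ X nu) (i : Pl S M)
    (hX : Tendsto X (φ : Filter ℕ) atTop)
    (g h : Om P φ X) (z f : ℕ → M) (hz : gm φ z = (g : UP M φ)) (hf : gm φ f = (h : UP M φ))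
    (hg : g ≠ 0)
    (H : ∀ ε : ℝ, 0 < ε → ∀ᶠ j in (φ : Filter ℕ),
      P.nv i.1 (i.2 (z j)) * X j ^ (-ε) ≤ P.nv i.1 (i.2 (f j))) : nu i g ≤ nu i h := by
  have hv := i.1.2
  have hX0 : ∀ᶠ j in (φ : Filter ℕ), 0 < X j := hX.eventually_gt_atTop 0
  have hz0 := rep_ne g z hz hg
  have hh : h ≠ 0 := by
    intro h0
    have hf0 : ∀ᶠ j in (φ : Filter ℕ), f j = 0 := by
      rw [← gm_eq, gm_zero, hf, h0]
      rfl
    obtain ⟨j, h1, h2, h3, h4⟩ := ((H 1 one_pos).and (hf0.and (hz0.and hX0))).exists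
    rw [h2, map_zero, P.nz] at h1
    have h5 : 0 < P.nv i.1 (i.2 (z j)) := P.pos i.1 hv _ (by simpa using h3)
    have h6 : 0 < X j ^ (-1 : ℝ) := Real.rpow_pos_of_pos h4 _
    nlinarith [mul_pos h5 h6]
  have hpos : 0 < nu i h := (nu i).pos hh
  have e1 : Real.exp (Real.log (nu i h)) = nu i h := Real.exp_log hpos
  rw [← e1]
  rw [(hN.2 i g z hz (Real.log (nu i h))).1]
  have hle := (hN.2 i h f hf (Real.log (nu i h))).1.1 e1.ge
  intro ε hε
  refine ((H (ε / 2) (by linarith)).and ((hle (ε / 2) (by linarith)).and hX0)).mono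
    fun j ⟨h1, h2, h3⟩ => ?_
  have h4 : 0 < X j ^ (ε / 2) := Real.rpow_pos_of_pos h3 _
  have h5 : X j ^ (-(ε / 2)) * X j ^ (ε / 2) = 1 := by
    rw [← Real.rpow_add h3, neg_add_cancel, Real.rpow_zero]
  calc P.nv i.1 (i.2 (z j)) = P.nv i.1 (i.2 (z j)) * X j ^ (-(ε / 2)) * X j ^ (ε / 2) := by
        rw [mul_assoc, h5, mul_one]
    _ ≤ X j ^ (Real.log (nu i h) + ε / 2) * X j ^ (ε / 2) :=
        mul_le_mul_of_nonneg_right (h1.trans h2) h4.le
    _ = X j ^ (Real.log (nu i h) + ε) := by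
        rw [← Real.rpow_add h3]
        congr 1
        ring

end

theorem SSFX (hOSR : ST_OSR) (hOMG : ST_OMG) (hNRM : ST_NRM) (hSSO : ST_SSO) (hSLW : ST_SLW)
    (hSPW : ST_SPW) (hU2 : ST_U2W) : ST_SSFX := by
  classical
  intro M _ _ _ S P φ X r w hS hX hw hI
  obtain ⟨osr1, osr2, -⟩ := hOSR M S P φ X hS hX
  obtain ⟨omg1, -, omg3, omg4, -⟩ := hOMG M S P φ X hS hX
  obtain ⟨-, -, -, -, slw5, slw6, slw7, -, slw9, -⟩ := hSLW M S P φ X hS hX
  obtain ⟨-, spw2, -, -, spw5, -⟩ := hSPW M S P φ X hS hX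
  obtain ⟨nu, hN⟩ := hNRM M S P φ X hS hX
  let w' : Fin r → Om P φ X := fun k => ⟨gm φ (w k), omg4 _ (osr2 _ (hw k))⟩
  have hw' : ∀ k, ((w' k : Om P φ X) : UP M φ) = gm φ (w k) := fun k => rfl
  have hmon : ∀ m : Fin r → ℤ, gm φ (fun j => monM (fun k => w k j) m) =
      ((mon w' m : Om P φ X) : UP M φ) := mon_coe w w' hw'
  have hwne : ∀ k, ∀ᶠ j in (φ : Filter ℕ), w k j ≠ 0 := fun k => (hw k).1.mono fun j h => h.1
  have hw0 : ∀ k, w' k ≠ 0 := by
    intro k h0
    have h1 : gm φ (w k) = 0 := by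
      rw [← hw' k, h0]
      rfl
    rw [← gm_zero φ, gm_eq] at h1
    obtain ⟨j, h2, h3⟩ := (h1.and (hwne k)).exists
    exact h3 h2
  have hmon0 : ∀ m : Fin r → ℤ, mon w' m ≠ 0 := by
    intro m
    exact Finset.prod_ne_zero_iff.2 fun k _ => zpow_ne_zero _ (hw0 k)
  -- representatives of slow elements
  have hrep : ∀ c : Sl P φ X, ∃ z : ℕ → M, Slw P φ X z ∧
      gm φ z = ((c : Om P φ X) : UP M φ) := fun c => (omg3 (c : Om P φ X)).1 c.2
  choose zr hz1 hz2 using hrep
  have hz3 : ∀ c : Sl P φ X, c ≠ 0 → ∀ᶠ j in (φ : Filter ℕ), zr c j ≠ 0 := by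
    intro c hc
    exact rep_ne (c : Om P φ X) (zr c) (hz2 c) fun h => hc (Subtype.ext h)
  let D : SSF (Sl P φ X) (Om P φ X) (Pl S M) r :=
    { nu := nu
      O := (OO P φ X).comap (Om P φ X).subtype
      w := w'
      ult := hN.1
      FO := by
        intro c
        rw [Subring.mem_comap]
        exact (omg1 _).2 ⟨zr c, osr1 _ (hz1 c), hz2 c⟩
      F1 := by
        intro i c hc
        have hc' : (algebraMap (Sl P φ X) (Om P φ X) c) = (c : Om P φ X) := rfl
        rw [hc']
        apply le_antisymm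
        · rw [← Real.exp_zero, (hN.2 i _ _ (hz2 c) 0).1]
          intro ε hε
          rw [zero_add]
          exact slw5 _ (hz1 c) i.1 i.1.2 i.2 ε hε
        · rw [← Real.exp_zero, (hN.2 i _ _ (hz2 c) 0).2]
          intro ε hε
          rw [zero_sub]
          exact slw6 _ (hz1 c) (hz3 c hc) i.1 i.1.2 i.2 ε hε
      w0 := hw0
      wO := by
        intro k
        rw [Subring.mem_comap]
        exact (omg1 _).2 ⟨w k, osr2 _ (hw k), rfl⟩
      wO' := by
        intro k
        rw [Subring.mem_comap]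
        refine (omg1 _).2 ⟨fun j => (w k j)⁻¹, osr2 _ (spw2 _ (hw k)), ?_⟩
        rw [gm_inv]
        rfl
      ss := by
        intro n e f he hli hsp
        refine hSSO M S P φ X nu n e f hS hX hN (fun k => ?_) hli hsp
        exact Subring.mem_comap.1 (he k)
      lau := by
        intro i s c m hm hcm
        -- the nonzero terms
        set T : Finset (Fin r → ℤ) := s.filter fun m => c m ≠ 0 with hT
        have hmT : m ∈ T := by
          rw [hT, Finset.mem_filter]
          exact ⟨hm, hcm⟩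
        let f : ℕ → M := fun j => ∑ a : T, zr (c a) j * monM (fun k => w k j) a
        have hf : gm φ f = ((∑ m ∈ s, algebraMap (Sl P φ X) (Om P φ X) (c m) * mon w' m :
            Om P φ X) : UP M φ) := by
          have e1 : ∑ m ∈ s, algebraMap (Sl P φ X) (Om P φ X) (c m) * mon w' m =
              ∑ a : T, algebraMap (Sl P φ X) (Om P φ X) (c a) * mon w' a := by
            rw [Finset.sum_coe_sort T
              (fun m => algebraMap (Sl P φ X) (Om P φ X) (c m) * mon w' m), hT,
              Finset.sum_filter]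
            refine Finset.sum_congr rfl fun m _ => ?_
            split_ifs with h
            · rfl
            · rw [not_not.1 h, map_zero, zero_mul]
          rw [e1]
          change gm φ (fun j => ∑ a : T, zr (c a) j * monM (fun k => w k j) a) =
            (Om P φ X).subtype (∑ a : T, algebraMap (Sl P φ X) (Om P φ X) (c a) * mon w' a)
          rw [gm_sum, map_sum]
          refine Finset.sum_congr rfl fun a _ => ?_
          rw [gm_mul, hmon, map_mul, hz2]
          rfl
        refine nu_le_of hN i hX _ _ (fun j => monM (fun k => w k j) m) f (hmon m) hf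
          (hmon0 m) ?_
        intro ε hε
        exact hU2 M S P φ X T (fun a => zr (c a)) (fun a j => monM (fun k => w k j) a) i.1 i.2
          ⟨m, hmT⟩ ε hS hX (fun a => hz1 (c a))
          (fun a => hz3 (c a) (Finset.mem_filter.1 a.2).2) (fun a => spw5 r w a hw)
          (fun a a' haa => ratio_not_slw slw7 hw hI fun h => haa (Subtype.ext h)) i.1.2 hε
      u0 := by
        intro m hm
        by_contra hm0
        refine hI m hm0 (slw9 _ (spw5 r w m hw).1 ?_)
        intro v hv σ ε hε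
        have h1 := hm (⟨v, hv⟩, σ)
        have h2 := (hN.2 (⟨v, hv⟩, σ) _ _ (hmon m) 0).1.1 (by rw [Real.exp_zero]; exact h1.le)
        have h3 := h2 ε hε
        rwa [zero_add] at h3 }
  refine ⟨D, ?_⟩
  exact
    { hw := fun k => rfl
      hO := fun g => Subring.mem_comap
      hN := hN }

end Pool.Agent.Helper99.JN
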