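import Pool.Agent.Helper71.JN.SheetC
import Pool.Agent.Helper99.SUBW.DOMW

/-!
Project JN, row MOD2: a sum with a dominant term which is close to an integer is moderate.
-/

set_option autoImplicit false

namespace Pool.Agent.Helper99.JN

open Filter Finset Pool.Agent.Helper70.SUB Pool.Agent.Helper77.SUBK Pool.Agent.Helper70.SUBL
  Pool.Agent.Helper70.SUBW Pool.Agent.Helper71.JN Pool.Agent.Helper99.SUBW

section

variable {M : Type} [Field M] [NumberField M] {S : Finset ℕ} {P : PF S M} {φ : Ultrafilter ℕ}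

/-- monomials with bounded exponents are bounded -/
theorem HE_bound {k : ℕ} (g : Fin k → M) (hg : ∀ l, SV S (g l)) {v : Option ℕ} (hv : v ∈ plc S)
    (σ : M ≃ₐ[ℚ] M) (e : Fin k → ℤ) (H : ℝ) (he : ∀ l, |(e l : ℝ)| ≤ H) (hH : 0 ≤ H) :
    P.nv v (σ (∏ l, g l ^ e l)) ≤
      Real.exp (H * ∑ l, ∑ v ∈ plc S, ∑ σ : M ≃ₐ[ℚ] M, |Real.log (P.nv v (σ (g l)))|) := by
  have hpos : ∀ l, 0 < P.nv v (σ (g l)) := fun l => P.pos v hv _ (by simpa using (hg l).1)
  have h1 : P.nv v (σ (∏ l, g l ^ e l)) = ∏ l, P.nv v (σ (g l)) ^ e l := by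
    rw [map_prod, P.prod hv]
    refine Finset.prod_congr rfl fun l _ => ?_
    rw [map_zpow₀, P.zpow hv]
  have h2 : ∏ l, P.nv v (σ (g l)) ^ e l =
      Real.exp (∑ l, (e l : ℝ) * Real.log (P.nv v (σ (g l)))) := by
    rw [Real.exp_sum]
    refine Finset.prod_congr rfl fun l _ => ?_
    rw [mul_comm, Real.exp_mul, Real.exp_log (hpos l), Real.rpow_intCast]
  rw [h1, h2]
  apply Real.exp_le_exp.2
  rw [Finset.mul_sum]
  refine Finset.sum_le_sum fun l _ => ?_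
  have h3 : |Real.log (P.nv v (σ (g l)))| ≤
      ∑ v ∈ plc S, ∑ σ : M ≃ₐ[ℚ] M, |Real.log (P.nv v (σ (g l)))| := by
    have h4 : |Real.log (P.nv v (σ (g l)))| ≤ ∑ σ : M ≃ₐ[ℚ] M, |Real.log (P.nv v (σ (g l)))| :=
      Finset.single_le_sum (f := fun σ : M ≃ₐ[ℚ] M => |Real.log (P.nv v (σ (g l)))|)
        (fun _ _ => abs_nonneg _) (Finset.mem_univ σ)
    refine h4.trans ?_
    exact Finset.single_le_sum
      (f := fun v => ∑ σ : M ≃ₐ[ℚ] M, |Real.log (P.nv v (σ (g l)))|)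
      (fun _ _ => Finset.sum_nonneg fun _ _ => abs_nonneg _) hv
  calc (e l : ℝ) * Real.log (P.nv v (σ (g l)))
      ≤ |(e l : ℝ) * Real.log (P.nv v (σ (g l)))| := le_abs_self _
    _ = |(e l : ℝ)| * |Real.log (P.nv v (σ (g l)))| := abs_mul _ _
    _ ≤ H * ∑ v ∈ plc S, ∑ σ : M ≃ₐ[ℚ] M, |Real.log (P.nv v (σ (g l)))| :=
        mul_le_mul (he l) h3 (abs_nonneg _) hH

/-- S-units with small exponents are moderate -/
theorem mu_of_HE {X : ℕ → ℝ} (hX : Tendsto X (φ : Filter ℕ) atTop) {k : ℕ} (g : Fin k → M)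
    (hg : ∀ l, SV S (g l)) (B : ℝ) (u : ℕ → M) (hu : ∀ᶠ j in (φ : Filter ℕ), SV S (u j))
    (h : ∀ᶠ j in (φ : Filter ℕ), HE g (B * Real.log (X j)) (u j)) : MU P φ X u := by
  set L : ℝ := ∑ l, ∑ v ∈ plc S, ∑ σ : M ≃ₐ[ℚ] M, |Real.log (P.nv v (σ (g l)))| with hL
  have hL0 : 0 ≤ L := Finset.sum_nonneg fun _ _ => Finset.sum_nonneg fun _ _ =>
    Finset.sum_nonneg fun _ _ => abs_nonneg _
  refine ⟨hu, |B| * L + 1, by positivity, ?_⟩
  filter_upwards [h, hX.eventually_ge_atTop 1] with j hj hj1 v hv σ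
  obtain ⟨e, he, hue⟩ := hj
  have hlog : 0 ≤ Real.log (X j) := Real.log_nonneg hj1
  have hx0 : 0 < X j := by linarith
  have h1 : ∀ l, |(e l : ℝ)| ≤ |B| * Real.log (X j) := fun l =>
    (he l).trans (mul_le_mul_of_nonneg_right (le_abs_self B) hlog)
  rw [hue]
  refine (HE_bound g hg hv σ e _ h1 (by positivity)).trans ?_
  rw [← hL, Real.rpow_def_of_pos hx0]
  apply Real.exp_le_exp.2
  nlinarith

/-- change of scale for sums of moderate S-units -/
theorem spM_scale {X X' : ℕ → ℝ} (h1 : ∀ z : ℕ → M, Slw P φ X z → Slw P φ X' z)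
    (h2 : ∀ u : ℕ → M, MU P φ X u → MU P φ X' u) (z : ℕ → M) (hz : SpM P φ X z) :
    SpM P φ X' z := by
  obtain ⟨t, c, u, hc, hu, he⟩ := hz
  exact ⟨t, c, u, fun i => h1 _ (hc i), fun i => h2 _ (hu i), he⟩

end

theorem MOD2 (hSLW : ST_SLW) (hDOM : ST_DOMW) : ST_MOD2 := by
  classical
  intro M _ _ _ S P φ n k t g δ B θ w c a ξ hS hn hδ hδn hθ hg hX hw ha hc hsz hcl halt
  have hnn := mem_none (S := S)
  have hn0 : (0 : ℝ) < n := by exact_mod_cast hn
  have ht0 : (0 : ℝ) ≤ t := Nat.cast_nonneg t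
  have hsz' : ∀ᶠ j in (φ : Filter ℕ), ∀ i, P.nv none ((c i j : M) * a i j)
      ≤ P.nv none (w j) ^ ((n : ℝ) - δ) := Filter.eventually_all.2 hsz
  have hsum : ∀ᶠ j in (φ : Filter ℕ), P.nv none (∑ i, (c i j : M) * a i j)
      ≤ t * P.nv none (w j) ^ ((n : ℝ) - δ) := by
    filter_upwards [hsz'] with j hj
    refine (nv_sum_le P hnn _ _).trans ((Finset.sum_le_sum fun i _ => hj i).trans ?_)
    rw [Finset.sum_const, Finset.card_univ, Fintype.card_fin, nsmul_eq_mul]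
  -- `X ^ θ ≤ X / 8`
  have hθX : ∀ᶠ j in (φ : Filter ℕ), |(ξ j : ℝ)| ^ θ ≤ |(ξ j : ℝ)| / 8 := by
    have h1 := (tendsto_rpow_neg_atTop (by linarith : 0 < 1 - θ)).comp hX
    have h2 : ∀ᶠ j in (φ : Filter ℕ), |(ξ j : ℝ)| ^ (-(1 - θ)) < 1 / 8 :=
      h1.eventually (gt_mem_nhds (by norm_num))
    filter_upwards [h2, hX.eventually_gt_atTop 0] with j hj1 hj2
    have h3 : |(ξ j : ℝ)| ^ θ = |(ξ j : ℝ)| * |(ξ j : ℝ)| ^ (-(1 - θ)) := by
      nth_rewrite 2 [← Real.rpow_one |(ξ j : ℝ)|]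
      rw [← Real.rpow_add hj2]
      congr 1
      ring
    rw [h3]
    nlinarith
  -- sizes
  have hz1 : ∀ᶠ j in (φ : Filter ℕ),
      P.nv none ((ξ j : M) - (w j ^ n + ∑ i, (c i j : M) * a i j)) ≤ |(ξ j : ℝ)| / 8 := by
    filter_upwards [hcl, hθX] with j h1 h2 using h1.trans h2
  set K : ℝ := max 1 ((8 * t + 1) ^ (1 / δ)) with hK
  have hK1 : 1 ≤ K := le_max_left _ _
  have hW : ∀ᶠ j in (φ : Filter ℕ), K < P.nv none (w j) := by
    filter_upwards [hw, hsum, hz1, hX.eventually_gt_atTop (8 / 7 * ((1 + t) * K ^ n))]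
      with j h1 h2 h3 h4
    by_contra hcon
    have hle := not_lt.1 hcon
    have hpos := P.pos none hnn (w j) h1.1
    have h5 : P.nv none (w j) ^ n ≤ K ^ n := pow_le_pow_left₀ hpos.le hle n
    have h6 : P.nv none (w j) ^ ((n : ℝ) - δ) ≤ K ^ n := by
      calc P.nv none (w j) ^ ((n : ℝ) - δ) ≤ K ^ ((n : ℝ) - δ) :=
            Real.rpow_le_rpow hpos.le hle (by linarith)
        _ ≤ K ^ (n : ℝ) := Real.rpow_le_rpow_of_exponent_le hK1 (by linarith)
        _ = K ^ n := Real.rpow_natCast _ _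
    have h7 : |(ξ j : ℝ)| ≤ |(ξ j : ℝ)| / 8 + (K ^ n + t * K ^ n) := by
      rw [← nv_int P (ξ j)] at h3 ⊢
      have h8 : (ξ j : M) = ((ξ j : M) - (w j ^ n + ∑ i, (c i j : M) * a i j)) +
        (w j ^ n + ∑ i, (c i j : M) * a i j) := by ring
      calc P.nv none (ξ j : M) = P.nv none (((ξ j : M) - (w j ^ n + ∑ i, (c i j : M) * a i j)) +
            (w j ^ n + ∑ i, (c i j : M) * a i j)) := by rw [← h8]
        _ ≤ _ := (P.add none hnn _ _).trans (add_le_add h3 ((P.add none hnn _ _).trans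
            (add_le_add ((nv_pow' P hnn _ _).le.trans h5)
              (h2.trans (mul_le_mul_of_nonneg_left h6 ht0)))))
    nlinarith
  have hWδ : ∀ᶠ j in (φ : Filter ℕ), t * P.nv none (w j) ^ ((n : ℝ) - δ)
      ≤ P.nv none (w j) ^ n / 8 := by
    filter_upwards [hW] with j hj
    have hpos : 0 < P.nv none (w j) := by linarith
    have h1 : 8 * (t : ℝ) + 1 ≤ P.nv none (w j) ^ δ := by
      have h2 : (8 * (t : ℝ) + 1) ^ (1 / δ) ≤ P.nv none (w j) :=
        (le_max_right _ _).trans hj.le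
      calc 8 * (t : ℝ) + 1 = ((8 * (t : ℝ) + 1) ^ (1 / δ)) ^ δ := by
            rw [← Real.rpow_mul (by positivity), one_div, inv_mul_cancel₀ hδ.ne', Real.rpow_one]
        _ ≤ _ := Real.rpow_le_rpow (by positivity) h2 hδ.le
    have h3 : P.nv none (w j) ^ n = P.nv none (w j) ^ δ * P.nv none (w j) ^ ((n : ℝ) - δ) := by
      rw [← Real.rpow_add hpos, ← Real.rpow_natCast]
      congr 1
      ring
    have h4 : 0 < P.nv none (w j) ^ ((n : ℝ) - δ) := Real.rpow_pos_of_pos hpos _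
    rw [h3]
    nlinarith
  have hsize : ∀ᶠ j in (φ : Filter ℕ), |(ξ j : ℝ)| ≤ 2 * P.nv none (w j) ^ n ∧
      P.nv none (w j) ^ n ≤ 2 * |(ξ j : ℝ)| ∧
      P.nv none (w j ^ n + ∑ i, (c i j : M) * a i j) ≤ 9 / 8 * |(ξ j : ℝ)| ∧
      7 / 8 * |(ξ j : ℝ)| ≤ P.nv none (w j ^ n + ∑ i, (c i j : M) * a i j) := by
    filter_upwards [hW, hsum, hz1, hWδ, hX.eventually_gt_atTop 0] with j h1 h2 h3 h4 h0
    have hpos : 0 < P.nv none (w j) := by linarith
    have hpn : 0 < P.nv none (w j) ^ n := pow_pos hpos n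
    have h5 : P.nv none (ξ j : M) ≤
        P.nv none ((ξ j : M) - (w j ^ n + ∑ i, (c i j : M) * a i j)) +
        P.nv none (w j ^ n + ∑ i, (c i j : M) * a i j) := by
      refine le_trans (le_of_eq ?_) (P.add none hnn _ _)
      congr 1
      ring
    have h6 : P.nv none (w j ^ n + ∑ i, (c i j : M) * a i j) ≤
        P.nv none ((ξ j : M) - (w j ^ n + ∑ i, (c i j : M) * a i j)) + P.nv none (ξ j : M) := by
      rw [P.sub_comm hnn]
      refine le_trans (le_of_eq ?_) (P.add none hnn _ _)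
      congr 1
      ring
    have h7 : P.nv none (w j ^ n) ≤ P.nv none (w j ^ n + ∑ i, (c i j : M) * a i j) +
        P.nv none (∑ i, (c i j : M) * a i j) := by
      refine le_trans (le_of_eq ?_) (P.sub hnn _ _)
      congr 1
      ring
    have h8 : P.nv none (w j ^ n + ∑ i, (c i j : M) * a i j) ≤ P.nv none (w j ^ n) +
        P.nv none (∑ i, (c i j : M) * a i j) := P.add none hnn _ _
    rw [nv_pow' P hnn] at h7 h8
    rw [nv_int] at h5 h6
    refine ⟨by linarith, by linarith, by linarith, by linarith⟩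
  have hlast : ∀ᶠ j in (φ : Filter ℕ), |(ξ j : ℝ)| ≤ 2 * P.nv none (w j) ^ n ∧
      P.nv none (w j) ^ n ≤ 2 * |(ξ j : ℝ)| ∧
      P.nv none (∑ i, (c i j : M) * a i j) ≤ t * P.nv none (w j) ^ ((n : ℝ) - δ) := by
    filter_upwards [hsize, hsum] with j h1 h2 using ⟨h1.1, h1.2.1, h2⟩
  rcases Ultrafilter.eventually_or.1 halt with hint | hexp
  · -- the sum is an integer
    obtain ⟨z, hz⟩ := hint.choice
    have hzsz : ∀ᶠ j in (φ : Filter ℕ), |(z j : ℝ)| ≤ 9 / 8 * |(ξ j : ℝ)| ∧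
        7 / 8 * |(ξ j : ℝ)| ≤ |(z j : ℝ)| := by
      filter_upwards [hsize, hz] with j h1 h2
      have h3 : P.nv none (w j ^ n + ∑ i, (c i j : M) * a i j) = |(z j : ℝ)| := by
        rw [h2, nv_int]
      rw [← h3]
      exact ⟨h1.2.2.1, h1.2.2.2⟩
    have hZ : Tendsto (fun j => |(z j : ℝ)|) (φ : Filter ℕ) atTop := by
      refine tendsto_atTop_mono' _ ?_ (hX.const_mul_atTop (by norm_num : (0 : ℝ) < 7 / 8))
      exact hzsz.mono fun j h => h.2
    obtain ⟨-, -, -, -, -, -, -, -, -, -, -, -, sc1⟩ :=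
      hSLW M S P φ (fun j => |(ξ j : ℝ)|) hS hX
    obtain ⟨-, -, -, -, -, -, -, -, -, -, -, -, sc2⟩ :=
      hSLW M S P φ (fun j => |(z j : ℝ)|) hS hZ
    obtain ⟨s1, -⟩ := sc1 (fun j => |(z j : ℝ)|) 2 two_pos hZ (by
      filter_upwards [hzsz, hZ.eventually_ge_atTop 2] with j h1 h2
      rw [show (2 : ℝ) = ((2 : ℕ) : ℝ) by norm_num, Real.rpow_natCast]
      nlinarith [h1.2])
    obtain ⟨s2, s3⟩ := sc2 (fun j => |(ξ j : ℝ)|) 2 two_pos hX (by
      filter_upwards [hzsz, hX.eventually_ge_atTop 2] with j h1 h2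
      rw [show (2 : ℝ) = ((2 : ℕ) : ℝ) by norm_num, Real.rpow_natCast]
      nlinarith [h1.1])
    obtain ⟨d1, d2⟩ := hDOM M S P φ n t δ w (fun i j => (c i j : M)) a z hS hn hδ hδn hZ hw ha
      (fun i => s1 _ (hc i)) hsz hz
    exact ⟨s3 _ d1, spM_scale s2 s3 _ d2, hlast⟩
  · -- bounded exponents
    refine ⟨mu_of_HE hX g hg B w hw (hexp.mono fun j h => h.1), ?_, hlast⟩
    exact ⟨t, fun i j => (c i j : M), a, hc, fun i =>
      mu_of_HE hX g hg B (a i) (ha i) (hexp.mono fun j h => h.2 i),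
      Filter.Eventually.of_forall fun j => rfl⟩

end Pool.Agent.Helper99.JN
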